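import Pool.Agent.Helper68.Fam.Family

/-!
# Packet FAM-DEG (MP_18808e_co)

If `x` has at least seven neighbours in `G`, then `inl x` has at least four neighbours in
`YG G F`.
-/

namespace NApexGraphs.Fam.Helper89

open SimpleGraph NApexGraphs NApexGraphs.Dom NApexGraphs.Fam

theorem gDEG : Goals.DEG := by
  intro V hV hD G F hF x hx
  classical
  have : Fintype V := Fintype.ofFinite V
  let f : V → V ⊕ {T // T ∈ F} := fun y =>
    if h : ∃ T, ∃ hT : T ∈ F, x ∈ T ∧ y ∈ T then Sum.inr ⟨h.choose, h.choose_spec.choose⟩
    else Sum.inl y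
  have hfr : ∀ y (T : {T // T ∈ F}), f y = Sum.inr T → x ∈ T.1 ∧ y ∈ T.1 := by
    intro y T h
    simp only [f] at h
    split_ifs at h with h1
    have h2 := Sum.inr.inj h
    rw [← h2]
    exact h1.choose_spec.choose_spec
  have hfl : ∀ y z, f y = Sum.inl z → y = z ∧ ∀ T ∈ F, ¬ (x ∈ T ∧ y ∈ T) := by
    intro y z h
    simp only [f] at h
    split_ifs at h with h1
    exact ⟨Sum.inl.inj h, fun T hT h2 => h1 ⟨T, hT, h2⟩⟩
  let s : Finset V := (G.neighborSet x).toFinset
  let t : Finset (V ⊕ {T // T ∈ F}) := ((YG G F).neighborSet (Sum.inl x)).toFinset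
  have hst : s.card ≤ 2 * t.card := by
    refine Finset.card_le_mul_card_image_of_maps_to (f := f) ?_ 2 ?_
    · intro y hy
      have hy' : G.Adj x y := by simpa [s] using hy
      have : (YG G F).Adj (Sum.inl x) (f y) := by
        rcases hc : f y with z | T
        · obtain ⟨h1, h2⟩ := hfl y z hc
          subst h1
          exact ⟨hy', h2⟩
        · exact (hfr y T hc).1
      simpa [t] using this
    · intro b hb
      have hb' : (YG G F).Adj (Sum.inl x) b := by simpa [t] using hb
      rcases b with z | T
      · have : s.filter (fun a => f a = Sum.inl z) ⊆ {z} := by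
          intro a ha
          rw [Finset.mem_filter] at ha
          rw [Finset.mem_singleton]
          exact (hfl a z ha.2).1
        refine (Finset.card_le_card this).trans ?_
        simp
      · have hxT : x ∈ T.1 := hb'
        have : s.filter (fun a => f a = Sum.inr T) ⊆ T.1.erase x := by
          intro a ha
          rw [Finset.mem_filter] at ha
          have hxa : G.Adj x a := by simpa [s] using ha.1
          rw [Finset.mem_erase]
          exact ⟨hxa.ne', (hfr a T ha.2).2⟩
        refine (Finset.card_le_card this).trans ?_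
        rw [Finset.card_erase_of_mem hxT, hF.card T.1 T.2]
  have h1 : (G.neighborSet x).ncard = s.card := Set.ncard_eq_toFinset_card' _
  have h2 : ((YG G F).neighborSet (Sum.inl x)).ncard = t.card := Set.ncard_eq_toFinset_card' _
  omega

end NApexGraphs.Fam.Helper89
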